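import Pool.Agent.Q54.ZR.Stm

/-!
# Project ZR, the bridge between ordered adjacent pairs and edge sets
-/

set_option autoImplicit false

namespace Pool.Agent.Q231.ZR

open Finset

theorem pairs {α : Type} [Fintype α] [DecidableEq α] (G : SimpleGraph α) [DecidableRel G.Adj]
    (g : Sym2 α → ZMod 3) :
    (∑ a, ∑ b, if G.Adj a b then g s(a, b) else 0) = 2 * ∑ e ∈ G.edgeFinset, g e := by
  classical
  have h1 : (∑ a, ∑ b, if G.Adj a b then g s(a, b) else 0) =
      ∑ p ∈ (Finset.univ : Finset (α × α)).filter (fun p => G.Adj p.1 p.2), g s(p.1, p.2) := by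
    rw [Finset.sum_filter, ← Finset.univ_product_univ, Finset.sum_product]
  rw [h1]
  have h2 : ∀ p ∈ (Finset.univ : Finset (α × α)).filter (fun p => G.Adj p.1 p.2),
      s(p.1, p.2) ∈ G.edgeFinset := by
    intro p hp
    rw [SimpleGraph.mem_edgeFinset, SimpleGraph.mem_edgeSet]
    exact (Finset.mem_filter.mp hp).2
  rw [← Finset.sum_fiberwise_of_maps_to h2, Finset.mul_sum]
  refine Finset.sum_congr rfl ?_
  intro e he
  induction e using Sym2.ind with
  | _ a b =>
    rw [SimpleGraph.mem_edgeFinset, SimpleGraph.mem_edgeSet] at he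
    have hne : a ≠ b := he.ne
    have hset : ((Finset.univ : Finset (α × α)).filter (fun p => G.Adj p.1 p.2)).filter
        (fun p => s(p.1, p.2) = s(a, b)) = {(a, b), (b, a)} := by
      ext ⟨x, y⟩
      simp only [Finset.mem_filter, Finset.mem_univ, true_and, Finset.mem_insert,
        Finset.mem_singleton, Prod.mk.injEq, Sym2.eq_iff]
      constructor
      · rintro ⟨_, h⟩
        exact h
      · rintro (⟨rfl, rfl⟩ | ⟨rfl, rfl⟩)
        · exact ⟨he, Or.inl ⟨rfl, rfl⟩⟩
        · exact ⟨he.symm, Or.inr ⟨rfl, rfl⟩⟩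
    rw [hset, Finset.sum_pair]
    · have : s(b, a) = s(a, b) := Sym2.eq_swap
      simp only [this]
      ring
    · intro h
      exact hne (Prod.mk.injEq _ _ _ _ ▸ h).1

theorem bri : Pool.Agent.Q54.ZR.S_BRI := by
  intro α V _ _ G _
  refine ⟨?_, ?_⟩
  · unfold Pool.Agent.Q54.ZR.Deg3
    rw [pairs G (fun _ => 1)]
    rw [Finset.sum_const, nsmul_eq_mul, mul_one]
    rw [← (ZMod.natCast_eq_zero_iff (G.edgeFinset.card) 3)]
    constructor
    · intro h
      have h3 : (2 : ZMod 3) * (2 * (G.edgeFinset.card : ZMod 3)) = 0 := by rw [h, mul_zero]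
      have h4 : (2 : ZMod 3) * (2 * (G.edgeFinset.card : ZMod 3)) = (G.edgeFinset.card : ZMod 3) := by
        rw [← mul_assoc]
        have : (2 : ZMod 3) * 2 = 1 := by decide
        rw [this, one_mul]
      rw [← h4, h3]
    · intro h
      rw [h, mul_zero]
  · intro f φ
    unfold Pool.Agent.Q54.ZR.S
    have h1 := pairs G (fun e => f (e.map φ))
    simp only [Sym2.map_mk] at h1
    rw [h1, ← mul_assoc]
    have : (2 : ZMod 3) * 2 = 1 := by decide
    rw [this, one_mul]

end Pool.Agent.Q231.ZR
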