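import Pool.Agent.Q54.ZR.Stm

/-!
# Project ZR, the theorem from its parts
-/

set_option autoImplicit false

namespace Pool.Agent.Q231.ZR

open Finset

theorem weight3 {V : Type} (G : SimpleGraph (Fin 3)) [DecidableRel G.Adj]
    (hG : ∀ a b : Fin 3, a ≠ b → G.Adj a b) (c : V → V → ZMod 3)
    (hc : Pool.Agent.Q54.ZR.IsSym c) (φ : Fin 3 → V) :
    Pool.Agent.Q54.ZR.S G c φ = c (φ 0) (φ 1) + c (φ 1) (φ 2) + c (φ 0) (φ 2) := by
  unfold Pool.Agent.Q54.ZR.S
  have h01 : G.Adj 0 1 := hG 0 1 (by decide)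
  have h02 : G.Adj 0 2 := hG 0 2 (by decide)
  have h12 : G.Adj 1 2 := hG 1 2 (by decide)
  have h10 : G.Adj 1 0 := h01.symm
  have h20 : G.Adj 2 0 := h02.symm
  have h21 : G.Adj 2 1 := h12.symm
  simp only [Fin.sum_univ_three, h01, h02, h12, h10, h20, h21, if_true, G.irrefl, if_false]
  rw [hc (φ 1) (φ 0), hc (φ 2) (φ 0), hc (φ 2) (φ 1)]
  generalize c (φ 0) (φ 1) = p
  generalize c (φ 0) (φ 2) = q
  generalize c (φ 1) (φ 2) = r
  revert p q r
  decide

theorem final : Pool.Agent.Q54.ZR.S_RED → Pool.Agent.Q54.ZR.S_BRI → Pool.Agent.Q54.ZR.S_K3U →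
    Pool.Agent.Q54.ZR.S_K3L → Pool.Agent.Q54.ZR.S_FINAL := by
  intro hRED hBRI hK3U hK3L
  intro n G _ hdvd
  classical
  obtain ⟨hdeg, _⟩ := hBRI (Fin n) (Fin n) G
  have hDeg := hdeg.mpr hdvd
  by_cases hK : Fintype.card (Fin n) = 3 ∧ ∀ a b : Fin n, a ≠ b → G.Adj a b
  · obtain ⟨hn, hadj⟩ := hK
    rw [Fintype.card_fin] at hn
    subst hn
    refine ⟨11, ⟨⟨by norm_num, ?_⟩, ?_⟩, by norm_num, ?_⟩
    · intro N hN f
      obtain ⟨x, y, z, hxy, hyz, hxz, hsum⟩ := hK3U (Fin N) (fun x y => f s(x, y))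
        (fun x y => by show f s(x, y) = f s(y, x); rw [Sym2.eq_swap]) (by simpa using hN)
      have hinj : Function.Injective (![x, y, z] : Fin 3 → Fin N) := by
        intro i j hij
        fin_cases i <;> fin_cases j <;> simp_all
      refine ⟨⟨![x, y, z], hinj⟩, ?_⟩
      obtain ⟨_, h2⟩ := hBRI (Fin 3) (Fin N) G
      have h3 := h2 f ![x, y, z]
      have h4 := weight3 G hadj (fun x y => f s(x, y))
        (fun x y => by show f s(x, y) = f s(y, x); rw [Sym2.eq_swap]) ![x, y, z]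
      show ∑ e ∈ G.edgeFinset, f (e.map ![x, y, z]) = 0
      rw [← h3, h4]
      exact hsum
    · intro R hR
      obtain ⟨hR0, hR⟩ := hR
      by_contra hlt
      have hR10 : R ≤ 10 := by omega
      obtain ⟨c, hc, hne⟩ := hK3L
      obtain ⟨φ, hφ⟩ := hR 10 hR10 (Sym2.lift ⟨c, fun x y => hc x y⟩)
      obtain ⟨_, h2⟩ := hBRI (Fin 3) (Fin 10) G
      have h3 := h2 (Sym2.lift ⟨c, fun x y => hc x y⟩) φ
      have h4 := weight3 G hadj (fun x y => (Sym2.lift ⟨c, fun x y => hc x y⟩ :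
        Sym2 (Fin 10) → ZMod 3) s(x, y))
        (fun x y => by
          show (Sym2.lift ⟨c, fun x y => hc x y⟩ : Sym2 (Fin 10) → ZMod 3) s(x, y) =
            (Sym2.lift ⟨c, fun x y => hc x y⟩ : Sym2 (Fin 10) → ZMod 3) s(y, x)
          rw [Sym2.eq_swap]) φ
      rw [hφ] at h3
      rw [h3] at h4
      have h5 : ∀ i j : Fin 3, i ≠ j → φ i ≠ φ j := fun i j hij h => hij (φ.injective h)
      exact hne (φ 0) (φ 1) (φ 2) (h5 0 1 (by decide)) (h5 1 2 (by decide)) (h5 0 2 (by decide))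
        h4.symm
    · constructor
      · intro _
        refine ⟨⟨Equiv.refl _, ?_⟩⟩
        intro a b
        simp only [Equiv.refl_apply, SimpleGraph.top_adj]
        constructor
        · intro h
          exact hadj a b h
        · intro h
          exact h.ne
      · intro _
        rfl
  · have hP : 0 < n + 7 ∧ ∀ N : ℕ, n + 7 ≤ N → ∀ f : Sym2 (Fin N) → ZMod 3,
        ∃ φ : Fin n ↪ Fin N, ∑ e ∈ G.edgeFinset, f (e.map φ) = 0 := by
      refine ⟨by omega, ?_⟩
      intro N hN f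
      obtain ⟨φ, hinj, hS⟩ := hRED (Fin n) (Fin N) G (fun x y => f s(x, y))
        (fun x y => by show f s(x, y) = f s(y, x); rw [Sym2.eq_swap]) hDeg
        (by simpa using hN) hK
      refine ⟨⟨φ, hinj⟩, ?_⟩
      obtain ⟨_, h2⟩ := hBRI (Fin n) (Fin N) G
      show ∑ e ∈ G.edgeFinset, f (e.map φ) = 0
      rw [← h2 f φ]
      exact hS
    have hex : ∃ R : ℕ, 0 < R ∧ ∀ N : ℕ, R ≤ N → ∀ f : Sym2 (Fin N) → ZMod 3,
        ∃ φ : Fin n ↪ Fin N, ∑ e ∈ G.edgeFinset, f (e.map φ) = 0 := ⟨n + 7, hP⟩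
    have hle : Nat.find hex ≤ n + 7 := Nat.find_min' hex hP
    refine ⟨Nat.find hex, ⟨Nat.find_spec hex, ?_⟩, by omega, ?_⟩
    · intro R hR
      exact Nat.find_min' hex hR
    · constructor
      · intro h
        omega
      · rintro ⟨e⟩
        exfalso
        refine hK ⟨?_, ?_⟩
        · rw [Fintype.card_congr e.toEquiv, Fintype.card_fin]
        · intro a b hab
          rw [← e.map_rel_iff']
          rw [SimpleGraph.top_adj]
          exact fun h => hab (e.injective h)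

end Pool.Agent.Q231.ZR
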